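import Mathlib

namespace Pool.Agent.Results.MP_b39683_an.Counter

open scoped ComplexOrder

/-- Square summable functions: `L²(G)` of a discrete group with its counting (Haar) measure. -/
def Sq {G : Type} (f : G → ℂ) : Prop := Summable fun x => ‖f x‖ ^ 2

/-- A discrete group is amenable if it has a left invariant finitely additive probability measure
defined on all subsets. -/
def Amenable (G : Type) [Group G] : Prop :=
  ∃ m : Set G → ℝ, m Set.univ = 1 ∧ (∀ S, 0 ≤ m S) ∧
    (∀ S T, Disjoint S T → m (S ∪ T) = m S + m T) ∧ ∀ (g : G) S, m ((fun x => g * x) '' S) = m S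

/-- `T` (only its values on `L²(G)` matter) is a bounded complex linear operator on `L²(G)`. -/
def Bdd {G : Type} (T : (G → ℂ) → G → ℂ) : Prop :=
  (∀ f, Sq f → Sq (T f)) ∧
  (∀ f g, Sq f → Sq g → ∀ x, T (fun y => f y + g y) x = T f x + T g x) ∧
  (∀ (c : ℂ) f, Sq f → ∀ x, T (fun y => c * f y) x = c * T f x) ∧
  ∃ C : ℝ, ∀ f, Sq f → ∑' x, ‖T f x‖ ^ 2 ≤ C * ∑' x, ‖f x‖ ^ 2

/-- Positive operators: nonnegative functions go to nonnegative functions. -/
def Positive {G : Type} (S : (G → ℂ) → G → ℂ) : Prop :=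
  ∀ f, Sq f → (∀ x, (f x).im = 0 ∧ 0 ≤ (f x).re) → ∀ x, (S f x).im = 0 ∧ 0 ≤ (S f x).re

/-- Regular operators: complex linear combinations of positive bounded operators. -/
def Regular {G : Type} (T : (G → ℂ) → G → ℂ) : Prop :=
  ∃ (n : ℕ) (c : Fin n → ℂ) (S : Fin n → (G → ℂ) → G → ℂ), (∀ i, Bdd (S i) ∧ Positive (S i)) ∧
    ∀ f, Sq f → ∀ x, T f x = ∑ i, c i * S i f x

/-- `T` commutes with all right translations `ρ_s f (x) = f (x s)`. -/
def RightInv {G : Type} [Group G] (T : (G → ℂ) → G → ℂ) : Prop :=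
  ∀ (s : G) f, Sq f → ∀ x, T (fun y => f (y * s)) x = T f (x * s)

noncomputable abbrev L2 (G : Type) := lp (fun _ : G => ℂ) 2

def Pos {G : Type} (S : L2 G →L[ℂ] L2 G) : Prop :=
  ∀ f : L2 G, (∀ x, 0 ≤ f x) → ∀ x, 0 ≤ S f x

def Reg {G : Type} (T : L2 G →L[ℂ] L2 G) : Prop :=
  T ∈ Submodule.span ℂ {S : L2 G →L[ℂ] L2 G | Pos S}

section
variable {G : Type}

theorem hs (f : L2 G) : HasSum (fun x => ‖f x‖ ^ 2) (‖f‖ ^ 2) := by
  have := lp.hasSum_norm (p := 2) (by norm_num) f
  simpa using this

noncomputable def cmp (e : G ≃ G) : L2 G →L[ℂ] L2 G :=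
  LinearMap.mkContinuous
    { toFun := fun f => ⟨fun x => f (e x), memℓp_gen (by
        have := (e.summable_iff (f := fun x => ‖f x‖ ^ 2)).2 (hs f).summable
        simpa [Function.comp_def] using this)⟩
      map_add' := fun f g => rfl
      map_smul' := fun c f => rfl } 1 (fun f => by
        rw [one_mul]
        refine (sq_le_sq₀ (norm_nonneg _) (norm_nonneg _)).1 (le_of_eq ?_)
        exact (hs _).unique ((e.hasSum_iff (f := fun x => ‖f x‖ ^ 2)).2 (hs f)))

@[simp] theorem cmp_apply (e : G ≃ G) (f : L2 G) (x : G) : cmp e f x = f (e x) := rfl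

theorem cmp_norm (e : G ≃ G) : ‖cmp e‖ ≤ 1 := LinearMap.mkContinuous_norm_le _ zero_le_one _

theorem sq_of (f : L2 G) : Sq f := (hs f).summable

noncomputable def mk (f : G → ℂ) (h : Sq f) : L2 G := ⟨f, memℓp_gen (by simpa [Sq] using h)⟩

open Classical in
noncomputable def toFn (T : L2 G →L[ℂ] L2 G) (f : G → ℂ) : G → ℂ :=
  if h : Sq f then T (mk f h) else 0

theorem toFn_coe (T : L2 G →L[ℂ] L2 G) (f : L2 G) : toFn T f = T f := dif_pos (sq_of f)

theorem toFn_bdd (T : L2 G →L[ℂ] L2 G) : Bdd (toFn T) := by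
  refine ⟨fun f h => ?_, fun f g hf hg x => ?_, fun c f hf x => ?_, ‖T‖ ^ 2, fun f h => ?_⟩
  · have := sq_of (T (mk f h))
    rw [← toFn_coe] at this
    exact this
  · have := toFn_coe T (mk f hf + mk g hg)
    rw [map_add, lp.coeFn_add (T _), ← toFn_coe T (mk f hf), ← toFn_coe T (mk g hg)] at this
    exact congrFun this x
  · have := toFn_coe T (c • mk f hf)
    rw [map_smul, lp.coeFn_smul c (T _), ← toFn_coe T (mk f hf)] at this
    exact congrFun this x
  · have h1 := (hs (T (mk f h))).tsum_eq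
    have h2 := (hs (mk f h)).tsum_eq
    rw [← toFn_coe] at h1
    refine h1.le.trans (le_trans ?_ (mul_le_mul_of_nonneg_left h2.ge (by positivity)))
    rw [← mul_pow]
    exact pow_le_pow_left₀ (norm_nonneg _) (T.le_opNorm _) 2

theorem exists_op {S : (G → ℂ) → G → ℂ} (h : Bdd S) :
    ∃ T : L2 G →L[ℂ] L2 G, ∀ f : L2 G, ⇑(T f) = S f := by
  obtain ⟨h1, h2, h3, C, h4⟩ := h
  refine ⟨LinearMap.mkContinuous
    { toFun := fun f => mk (S f) (h1 f (sq_of f))
      map_add' := fun f g => lp.ext (funext fun x => h2 f g (sq_of f) (sq_of g) x)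
      map_smul' := fun c f => lp.ext (funext fun x => h3 c f (sq_of f) x) } (|C| + 1)
    (fun f => ?_), fun f => rfl⟩
  refine (sq_le_sq₀ (norm_nonneg _) (by positivity)).1 ?_
  have := h4 f (sq_of f)
  rw [(hs f).tsum_eq] at this
  refine (hs _).tsum_eq.ge.trans (this.trans ?_)
  rw [mul_pow]
  exact mul_le_mul_of_nonneg_right (by nlinarith [le_abs_self C, abs_nonneg C]) (by positivity)

theorem reg_of {T : L2 G →L[ℂ] L2 G} (h : Regular (toFn T)) : Reg T := by
  obtain ⟨n, c, S, h1, h2⟩ := h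
  choose S' hS' using fun i => exists_op (h1 i).1
  have : T = ∑ i, c i • S' i := by
    refine ContinuousLinearMap.ext fun f => lp.ext (funext fun x => ?_)
    rw [sum_apply, lp.coeFn_sum, Finset.sum_apply, ← toFn_coe, h2 f (sq_of f)]
    exact Finset.sum_congr rfl fun i _ => by rw [← hS']; rfl
  rw [this]
  refine Submodule.sum_mem _ fun i _ => Submodule.smul_mem _ _ (Submodule.subset_span ?_)
  intro f hf x
  have := (h1 i).2 f (sq_of f) (fun y => ⟨(Complex.nonneg_iff.1 (hf y)).2.symm,
    (Complex.nonneg_iff.1 (hf y)).1⟩) x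
  rw [hS']
  exact Complex.nonneg_iff.2 ⟨this.2, this.1.symm⟩

variable [Group G]

noncomputable def W (s : G) : L2 G →L[ℂ] L2 G := 1 + Complex.I • cmp (Equiv.mulLeft s)

@[simp] theorem W_apply (s : G) (f : L2 G) (x : G) : W s f x = f x + Complex.I * f (s * x) := rfl

theorem W_norm (s : G) (h : s * s = 1) : ‖W s‖ ≤ 3 / 2 := by
  refine ContinuousLinearMap.opNorm_le_bound _ (by norm_num) fun f => ?_
  have h1 := (hs (W s f)).add (((Equiv.mulLeft s).hasSum_iff (f := fun x => ‖W s f x‖ ^ 2)).2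
    (hs (W s f)))
  have h2 := ((hs f).add (((Equiv.mulLeft s).hasSum_iff (f := fun x => ‖f x‖ ^ 2)).2
    (hs f))).mul_left 2
  have e : ‖W s f‖ ^ 2 + ‖W s f‖ ^ 2 = 2 * (‖f‖ ^ 2 + ‖f‖ ^ 2) := by
    refine h1.unique (h2.congr_fun fun x => ?_)
    simp only [Function.comp, W_apply, Equiv.coe_mulLeft, ← mul_assoc, h, one_mul,
      Complex.sq_norm, Complex.normSq_apply]
    simp
    ring
  refine (sq_le_sq₀ (norm_nonneg _) (by positivity)).1 ?_
  nlinarith [sq_nonneg ‖f‖]

omit [Group G] in
theorem ortho [DecidableEq G] {ι : Type} [Fintype ι] (x : ι → G) (hx : Function.Injective x) :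
    ‖∑ i, (lp.single 2 (x i) 1 : L2 G)‖ ^ 2 = Fintype.card ι := by
  classical
  rw [← inner_self_eq_norm_sq (𝕜 := ℂ), sum_inner]
  simp only [inner_sum, lp.inner_single_left, lp.single_apply, Pi.single_apply, hx.eq_iff]
  simp

omit [Group G] in
theorem reg_bound [DecidableEq G] {T : L2 G →L[ℂ] L2 G} (hT : Reg T) :
    ∃ C : ℝ, ∀ (n : ℕ) (x y : (Fin n → ZMod 2) → G), Function.Injective x →
      Function.Injective y → ∑ i, ∑ j, ‖T (lp.single 2 (y j) 1) (x i)‖ ≤ C * 2 ^ n := by
  induction hT using Submodule.span_induction with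
  | mem S hS =>
    refine ⟨‖S‖, fun n x y hx hy => ?_⟩
    have hp : ∀ i j, ‖S (lp.single 2 (y j) 1) (x i)‖ = (S (lp.single 2 (y j) 1) (x i)).re := by
      intro i j
      have := hS (lp.single 2 (y j) 1) (fun z => by
        simp only [lp.single_apply, Pi.single_apply]; split_ifs <;> simp) (x i)
      exact (Complex.re_eq_norm.2 this).symm
    have e : ∑ i, ∑ j, ‖S (lp.single 2 (y j) 1) (x i)‖ =
        (inner ℂ (∑ i, (lp.single 2 (x i) 1 : L2 G)) (S (∑ j, lp.single 2 (y j) 1))).re := by
      simp only [hp, map_sum, sum_inner, inner_sum, lp.inner_single_left, Complex.re_sum]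
      rw [Finset.sum_comm]
      simp
    rw [e]
    have a1 := ortho x hx
    have a2 := ortho y hy
    have a3 : ‖∑ i, (lp.single 2 (x i) 1 : L2 G)‖ = ‖∑ i, (lp.single 2 (y i) 1 : L2 G)‖ :=
      (sq_eq_sq₀ (norm_nonneg _) (norm_nonneg _)).1 (a1.trans a2.symm)
    have a4 : (Fintype.card (Fin n → ZMod 2) : ℝ) = 2 ^ n := by simp
    refine (Complex.re_le_norm _).trans ((norm_inner_le_norm _ _).trans ?_)
    refine (mul_le_mul_of_nonneg_left (S.le_opNorm _) (norm_nonneg _)).trans (le_of_eq ?_)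
    rw [a3, ← a4, ← a2]; ring
  | zero => exact ⟨0, by simp⟩
  | add S S' _ _ h h' =>
    obtain ⟨C, h⟩ := h
    obtain ⟨C', h'⟩ := h'
    refine ⟨C + C', fun n x y hx hy => ?_⟩
    rw [add_mul]
    refine le_trans ?_ (add_le_add (h n x y hx hy) (h' n x y hx hy))
    simp only [← Finset.sum_add_distrib]
    exact Finset.sum_le_sum fun i _ => Finset.sum_le_sum fun j _ => norm_add_le _ _
  | smul c S _ h =>
    obtain ⟨C, h⟩ := h
    refine ⟨‖c‖ * C, fun n x y hx hy => ?_⟩
    rw [mul_assoc]
    refine le_trans (le_of_eq ?_) (mul_le_mul_of_nonneg_left (h n x y hx hy) (norm_nonneg c))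
    simp only [Finset.mul_sum, ← norm_mul]
    rfl

end

abbrev Gr := FreeGroup Bool × Multiplicative (ℕ →₀ ZMod 2)

theorem not_amenable : ¬ Amenable Gr := by
  rintro ⟨m, h1, h0, hadd, hinv⟩
  let S : Bool × Bool → Set Gr := fun w => {g | g.1 ∈ FreeGroup.startsWith w}
  have mono : ∀ A B : Set Gr, A ⊆ B → m A ≤ m B := by
    intro A B h
    have := hadd A (B \ A) Set.disjoint_sdiff_right
    rw [Set.union_sdiff_cancel h] at this
    linarith [h0 (B \ A)]
  have dj : ∀ w w', w ≠ w' → Disjoint (S w) (S w') := fun w w' h =>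
    (FreeGroup.startsWith.disjoint_iff_ne.2 h).preimage Prod.fst
  have big : ∀ b, 1 ≤ m (S (b, true)) + m (S (b, false)) := by
    intro b
    have e := hadd (S (b, false)) (S (b, false))ᶜ disjoint_compl_right
    rw [Set.union_compl_self, h1] at e
    have := mono ((fun x => ((FreeGroup.mk [(b, true)], 1) : Gr) * x) '' (S (b, false))ᶜ)
      (S (b, true)) (by
        rintro _ ⟨g, hg, rfl⟩
        exact FreeGroup.startsWith_mk_mul (w := (b, true)) g.1 hg)
    rw [hinv] at this
    linarith
  have e1 := hadd _ _ (dj (true, true) (true, false) (by decide))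
  have e2 := hadd _ _ (dj (false, true) (false, false) (by decide))
  have e3 := hadd (S (true, true) ∪ S (true, false)) (S (false, true) ∪ S (false, false)) (by
    simp only [Set.disjoint_union_left, Set.disjoint_union_right]
    exact ⟨⟨dj _ _ (by decide), dj _ _ (by decide)⟩, dj _ _ (by decide), dj _ _ (by decide)⟩)
  have := mono (S (true, true) ∪ S (true, false) ∪ (S (false, true) ∪ S (false, false))) _
    (Set.subset_univ _)
  linarith [big true, big false]

noncomputable def s (n : ℕ) : Gr := (1, Multiplicative.ofAdd (Finsupp.single n 1))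

def a (n : ℤ) : Gr := (FreeGroup.of true ^ n, 1)

noncomputable def V : ℕ → L2 Gr →L[ℂ] L2 Gr
  | 0 => 1
  | n + 1 => W (s n) * V n

theorem s_sq (n : ℕ) : s n * s n = 1 := by
  simp only [s, Prod.mk_mul_mk, mul_one, ← ofAdd_add, ← Finsupp.single_add]
  rw [show (1 + 1 : ZMod 2) = 0 by decide]; simp

theorem V_norm (n : ℕ) : ‖V n‖ ≤ (3 / 2) ^ n := by
  induction n with
  | zero => rw [pow_zero]; exact ContinuousLinearMap.norm_id_le
  | succ n ih =>
    rw [V, pow_succ']
    exact (norm_mul_le _ _).trans (mul_le_mul (W_norm _ (s_sq n)) ih (norm_nonneg _) (by norm_num))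

def InA (n : ℕ) (g : Gr) : Prop := g.1 = 1 ∧ ∀ j, n ≤ j → g.2.toAdd j = 0

open Classical in
theorem V_ker (n : ℕ) (g : Gr) : ‖V n (lp.single 2 1 1) g‖ = if InA n g then 1 else 0 := by
  induction n generalizing g with
  | zero =>
    have : InA 0 g ↔ g = 1 := by
      constructor
      · rintro ⟨h1, h2⟩
        refine Prod.ext h1 (Multiplicative.toAdd.injective ?_)
        ext j; simpa using h2 j (Nat.zero_le j)
      · rintro rfl; exact ⟨rfl, fun j _ => rfl⟩
    simp only [V, one_apply_eq_self, lp.single_apply, Pi.single_apply, this]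
    split_ifs <;> simp
  | succ n ih =>
    rw [V, mul_apply_eq_comp, W_apply]
    have h1 := ih g
    have h2 := ih (s n * g)
    have e1 : (s n * g).1 = g.1 := by simp [s]
    have e2 : ∀ j, (s n * g).2.toAdd j = (if n = j then 1 else 0) + g.2.toAdd j := by
      intro j; simp [s, Finsupp.single_apply]
    have z2 : ∀ t : ZMod 2, t = 0 ∨ 1 + t = 0 := by decide
    by_cases c1 : InA n g
    · have c2 : ¬ InA n (s n * g) := fun c => by
        have := c.2 n le_rfl
        rw [e2, c1.2 n le_rfl] at this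
        simp at this
      rw [if_neg c2, norm_eq_zero] at h2
      rw [if_pos c1] at h1
      rw [h2, if_pos ⟨c1.1, fun j hj => c1.2 j (by omega)⟩]
      simpa using h1
    · rw [if_neg c1, norm_eq_zero] at h1
      rw [h1, zero_add, norm_mul, Complex.norm_I, one_mul, h2]
      refine if_congr ⟨fun c => ⟨e1 ▸ c.1, fun j hj => ?_⟩, fun c => ⟨e1.trans c.1, fun j hj => ?_⟩⟩
        rfl rfl
      · have := c.2 j (by omega)
        rwa [e2, if_neg (by omega), zero_add] at this
      · rw [e2]
        split_ifs with h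
        · subst h
          refine (z2 _).resolve_left fun h0 => c1 ⟨c.1, fun j hj => ?_⟩
          rcases hj.eq_or_lt with rfl | hj
          · exact h0
          · exact c.2 j hj
        · rw [zero_add]; exact c.2 j (by omega)

noncomputable def term (n : ℕ) : L2 Gr →L[ℂ] L2 Gr :=
  ((3 / 5 : ℂ) ^ n) • (cmp (Equiv.mulLeft (a (-n))) * V n)

theorem term_sum : Summable term := by
  refine Summable.of_norm_bounded (summable_geometric_of_lt_one (r := 9 / 10) (by norm_num)
    (by norm_num)) fun n => ?_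
  rw [term, norm_smul, norm_pow, show (9 / 10 : ℝ) = 3 / 5 * (3 / 2) by norm_num, mul_pow,
    show ‖(3 / 5 : ℂ)‖ = 3 / 5 by simp]
  refine mul_le_mul_of_nonneg_left ((norm_mul_le _ _).trans ?_) (by positivity)
  simpa using mul_le_mul (cmp_norm _) (V_norm n) (norm_nonneg _) zero_le_one

theorem comm (t : Gr) : Commute (∑' n, term n) (cmp (Equiv.mulRight t)) := by
  have hL : ∀ g : Gr, Commute (cmp (Equiv.mulLeft g)) (cmp (Equiv.mulRight t)) := fun g => by
    ext f x
    simp [mul_assoc]
  refine Commute.tsum_left _ fun n => Commute.smul_left ((hL _).mul_left ?_) _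
  induction n with
  | zero => exact Commute.one_left _
  | succ n ih => exact ((Commute.one_left _).add_left ((hL _).smul_left _)).mul_left ih

theorem rinv (t : Gr) (f h : L2 Gr) (e : ∀ x, h x = f (x * t)) (x : Gr) :
    (∑' n, term n) h x = (∑' n, term n) f (x * t) := by
  have : h = cmp (Equiv.mulRight t) f := lp.ext (funext e)
  rw [this, ← mul_apply_eq_comp, (comm t).eq]
  rfl

open Classical in
theorem val (n : ℕ) (g : Gr) (hg : InA n g) :
    ‖(∑' n, term n) (lp.single 2 1 1) (a n * g)‖ = (3 / 5) ^ n := by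
  have h1 := (term_sum.hasSum.mapL ((lp.evalCLM ℂ (fun _ : Gr => ℂ) 2 (a n * g)).comp
    (ContinuousLinearMap.apply ℂ (L2 Gr) (lp.single 2 1 1))))
  have tv : ∀ m, term m (lp.single 2 1 1) (a n * g) =
      (3 / 5 : ℂ) ^ m * V m (lp.single 2 1 1) (a (-m) * (a n * g)) := fun m => rfl
  have h2 : HasSum (fun m => term m (lp.single 2 1 1) (a n * g))
      (term n (lp.single 2 1 1) (a n * g)) := by
    refine hasSum_single n fun m hm => ?_
    rw [tv, mul_eq_zero]
    right
    rw [← norm_eq_zero, V_ker, if_neg]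
    intro c
    have := c.1
    simp only [a, Prod.fst_mul, hg.1, mul_one, ← zpow_add] at this
    have h3 := congrArg (FreeGroup.lift fun _ : Bool => Multiplicative.ofAdd (1 : ℤ)) this
    simp only [map_zpow, FreeGroup.lift_apply_of, map_one] at h3
    have h4 := congrArg Multiplicative.toAdd h3
    simp at h4
    omega
  have h3 : (∑' n, term n) (lp.single 2 1 1) (a n * g) = term n (lp.single 2 1 1) (a n * g) :=
    h1.unique h2
  have h4 : a (-n) * (a n * g) = g := by
    rw [← mul_assoc]; simp [a]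
  rw [h3, tv, h4, norm_mul, V_ker, if_pos hg]
  simp

noncomputable def emb (n : ℕ) (v : Fin n → ZMod 2) : Gr :=
  (1, Multiplicative.ofAdd (Finsupp.onFinset (Finset.range n)
    (fun j => if h : j < n then v ⟨j, h⟩ else 0) (fun j hj => by
      by_contra h
      exact hj (dif_neg (by simpa using h)))))

theorem emb_inj (n : ℕ) : Function.Injective (emb n) := by
  intro v w h
  ext j
  have := congrArg (fun g : Gr => g.2.toAdd j) h
  simpa [emb] using this

/-- A countable discrete non-amenable group with a bounded operator on `L²(G)` that commutes with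
all right translations and is not regular. -/
theorem result : ∃ (G : Type) (_ : Group G), Countable G ∧ ¬ Amenable G ∧
    ∃ T : (G → ℂ) → G → ℂ, Bdd T ∧ RightInv T ∧ ¬ Regular T := by
  classical
  have : Countable (Multiplicative (ℕ →₀ ZMod 2)) := inferInstanceAs (Countable (ℕ →₀ ZMod 2))
  refine ⟨Gr, inferInstance, inferInstance, not_amenable, toFn (∑' n, term n), toFn_bdd _,
    fun t f hf x => ?_, fun h => ?_⟩
  · have h1 := toFn_coe (∑' n, term n) (cmp (Equiv.mulRight t) (mk f hf))
    have h2 := toFn_coe (∑' n, term n) (mk f hf)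
    exact (congrFun h1 x).trans ((rinv t _ _ (fun _ => rfl) x).trans (congrFun h2 _).symm)
  obtain ⟨C, hC⟩ := reg_bound (reg_of h)
  obtain ⟨n, hn⟩ := pow_unbounded_of_one_lt C (show (1 : ℝ) < 6 / 5 by norm_num)
  have h1 := hC n (fun v => a n * emb n v) (emb n)
    (fun v w e => emb_inj n (mul_left_cancel e)) (emb_inj n)
  have h2 : ∀ v w, ‖(∑' n, term n) (lp.single 2 (emb n w) 1) (a n * emb n v)‖ = (3 / 5) ^ n := by
    intro v w
    have r : (∑' n, term n) (lp.single 2 (emb n w) 1) (a n * emb n v) =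
        (∑' n, term n) (lp.single 2 1 1) (a n * emb n v * (emb n w)⁻¹) :=
      rinv (emb n w)⁻¹ (lp.single 2 1 1) _ (fun x => by
        simp [lp.single_apply, Pi.single_apply, mul_inv_eq_one]) _
    rw [r, mul_assoc]
    refine val n _ ⟨by simp [emb], fun j hj => ?_⟩
    simp [emb, not_lt.2 hj]
  simp only [h2, Finset.sum_const, Finset.card_univ, Fintype.card_fun, ZMod.card,
    Fintype.card_fin, nsmul_eq_mul, Nat.cast_pow, Nat.cast_ofNat] at h1
  have h3 : (6 / 5 : ℝ) ^ n = 2 ^ n * (3 / 5) ^ n := by rw [← mul_pow]; norm_num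
  have h4 : (0 : ℝ) < 2 ^ n := by positivity
  nlinarith

end Pool.Agent.Results.MP_b39683_an.Counter
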